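import Pool.Agent.WAP.StmtsL
import Pool.Agent.WAP.Alg
import Pool.Agent.Helper32_WAP.Add

/-! Squad WAP, row DIV: division by a Gaussian integer prime to `ϖ` in the kernel of reduction.

The coordinates of `Q_k = b_k P` (`a b_k = 1` modulo `ϖ ^ k`) form Cauchy sequences, because
`(X_A - X_B) ^ 2 (X(A - B) + X_A + X_B) = (Y_A + Y_B) ^ 2` and
`(X_A - X_B) ^ 2 (X(A + B) + X_A + X_B) = (Y_A - Y_B) ^ 2`. -/

namespace Pool.Agent.WAP.H61D

open Classical Filter Topology Pool.Agent.WAP.G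

theorem ult_eq {F : Type} [NormedField F] (hu : ∀ x y : F, ‖x + y‖ ≤ max ‖x‖ ‖y‖) {x y : F}
    (h : ‖y‖ < ‖x‖) : ‖x + y‖ = ‖x‖ := by
  apply le_antisymm
  · exact (hu x y).trans (max_le le_rfl h.le)
  · have := hu (x + y) (-y)
    rw [add_neg_cancel_right, norm_neg] at this
    rcases le_max_iff.mp this with h1 | h1
    · exact h1
    · exact absurd (lt_of_le_of_lt h1 h) (lt_irrefl _)

theorem loc_inj {F : Type} [NormedField F] [Algebra GaussianInt F] {ϖ : GaussianInt}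
    (hF : IsLoc F ϖ) {a : GaussianInt} (ha : a ≠ 0) : algebraMap GaussianInt F a ≠ 0 := by
  obtain ⟨c, hc, hc'⟩ :=
    (FiniteMultiplicity.of_prime_left hF.prime ha).exists_eq_pow_mul_and_not_dvd
  rw [hc, map_mul, map_pow]
  refine mul_ne_zero (pow_ne_zero _ (norm_pos_iff.mp hF.uni)) ?_
  intro h
  apply hc'
  rw [← hF.lt_one c, h, norm_zero]
  exact one_pos

theorem loc_two {F : Type} [NormedField F] [Algebra GaussianInt F] {ϖ : GaussianInt}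
    (hF : IsLoc F ϖ) : (2 : F) ≠ 0 := by
  have h2 : (2 : GaussianInt) ≠ 0 := by
    intro h0
    have := congrArg Zsqrtd.re h0
    norm_num at this
  have := loc_inj hF h2
  rwa [map_ofNat] at this

theorem dif_core {F : Type} [NormedField F] (h2 : (2 : F) ≠ 0) {d : F} (hd : d ≠ 0) (P0 : Pt d)
    (hY0 : cY P0 ≠ 0) (N : ℝ) : ∃ ε : ℝ, 0 < ε ∧ ∀ P : Pt d, P ≠ 0 →
    ‖cX P - cX P0‖ < ε → ‖cY P - cY P0‖ < ε → Big N (P - P0) := by
  have hc : 0 < ‖2 * cY P0‖ := norm_pos_iff.mpr (mul_ne_zero h2 hY0)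
  obtain ⟨c, hcdef⟩ : ∃ c, c = ‖2 * cY P0‖ := ⟨_, rfl⟩
  rw [← hcdef] at hc
  obtain ⟨M, hM⟩ : ∃ M, M = |N| * ‖d‖ + 2 * ‖cX P0‖ + 1 := ⟨_, rfl⟩
  have hM1 : 1 ≤ M := by
    rw [hM]
    have : 0 ≤ |N| * ‖d‖ := by positivity
    have : 0 ≤ ‖cX P0‖ := norm_nonneg _
    linarith
  have hM0 : 0 < M := by linarith
  have hε : 0 < min 1 (c / (4 * M)) := lt_min one_pos (by positivity)
  refine ⟨min 1 (c / (4 * M)), hε, ?_⟩
  intro P hP hX hY
  have hX1 : ‖cX P - cX P0‖ < 1 := lt_of_lt_of_le hX (min_le_left _ _)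
  have hX2 : ‖cX P - cX P0‖ < c / (4 * M) := lt_of_lt_of_le hX (min_le_right _ _)
  have hY2 : ‖cY P - cY P0‖ < c / (4 * M) := lt_of_lt_of_le hY (min_le_right _ _)
  have hcM : c / (4 * M) ≤ c / 4 := by
    rw [div_le_div_iff₀ (by positivity) (by norm_num)]
    nlinarith
  have hP0 : P0 ≠ 0 := H32.ne_zero_of_cY hY0
  have hY3 : c / 2 < ‖cY P + cY P0‖ := by
    have h3 : 2 * cY P0 = (cY P + cY P0) - (cY P - cY P0) := by ring
    have h4 : c ≤ ‖cY P + cY P0‖ + ‖cY P - cY P0‖ := by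
      rw [hcdef, h3]
      exact norm_sub_le _ _
    linarith
  by_cases hx : cX P = cX P0
  · rcases H32.eq_or_neg hP hP0 hx with h | h
    · left
      rw [h, sub_self]
    · exfalso
      rw [h, H32.cY_neg] at hY3
      rw [neg_add_cancel, norm_zero] at hY3
      linarith
  · right
    have hN0 : -P0 ≠ 0 := neg_ne_zero.mpr hP0
    obtain ⟨-, h3, -⟩ := H32.add_ne hP hN0 (by rw [H32.cX_neg]; exact hx)
    rw [H32.cX_neg, H32.cY_neg, sub_neg_eq_add] at h3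
    have hsub : P - P0 = P + -P0 := rfl
    rw [hsub, h3, norm_div]
    rw [lt_div_iff₀ (norm_pos_iff.mpr hd)]
    have hxx : 0 < ‖cX P - cX P0‖ := norm_pos_iff.mpr (sub_ne_zero.mpr hx)
    have hq : 2 * M < ‖(cY P + cY P0) / (cX P - cX P0)‖ := by
      rw [norm_div, lt_div_iff₀ hxx]
      have h5 : 2 * M * ‖cX P - cX P0‖ < 2 * M * (c / (4 * M)) :=
        mul_lt_mul_of_pos_left hX2 (by positivity)
      have h6 : 2 * M * (c / (4 * M)) = c / 2 := by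
        field_simp
        ring
      linarith
    have hq2 : M < ‖((cY P + cY P0) / (cX P - cX P0)) ^ 2‖ := by
      rw [norm_pow]
      nlinarith
    have hX3 : ‖cX P‖ ≤ ‖cX P0‖ + 1 := by
      have h5 : cX P = cX P0 + (cX P - cX P0) := by ring
      rw [h5]
      refine le_trans (norm_add_le _ _) ?_
      linarith
    have h7 : ((cY P + cY P0) / (cX P - cX P0)) ^ 2 =
        (((cY P + cY P0) / (cX P - cX P0)) ^ 2 - cX P - cX P0) + (cX P + cX P0) := by ring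
    have h8 : ‖((cY P + cY P0) / (cX P - cX P0)) ^ 2‖ ≤
        ‖((cY P + cY P0) / (cX P - cX P0)) ^ 2 - cX P - cX P0‖ + (‖cX P‖ + ‖cX P0‖) := by
      calc ‖((cY P + cY P0) / (cX P - cX P0)) ^ 2‖
          = ‖(((cY P + cY P0) / (cX P - cX P0)) ^ 2 - cX P - cX P0) + (cX P + cX P0)‖ := by
            rw [← h7]
        _ ≤ ‖((cY P + cY P0) / (cX P - cX P0)) ^ 2 - cX P - cX P0‖ + ‖cX P + cX P0‖ :=
            norm_add_le _ _
        _ ≤ _ := by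
            have := norm_add_le (cX P) (cX P0)
            linarith
    have h9 : N * ‖d‖ ≤ |N| * ‖d‖ := mul_le_mul_of_nonneg_right (le_abs_self N) (norm_nonneg _)
    linarith

section local_part

variable {F : Type} [NormedField F] [Algebra GaussianInt F] {ϖ : GaussianInt}

/-- sizes of a nonzero point of the kernel of reduction -/
theorem sizes (zeq : ZeqStmt) (hF : IsLoc F ϖ) {d : F} (hd : d ≠ 0) {T : Pt d} (hT : Big 1 T)
    (h0 : T ≠ 0) : cY T ≠ 0 ∧ ‖cX T‖ * ‖zc T‖ ^ 2 = 1 ∧ ‖cY T‖ * ‖zc T‖ ^ 3 = 1 ∧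
    ‖d‖ < ‖cX T‖ ∧ 0 < ‖zc T‖ := by
  rcases hT with h | h
  · exact absurd h h0
  have h1 : ‖d‖ < ‖cX T‖ := by
    rw [norm_div, lt_div_iff₀ (norm_pos_iff.mpr hd), one_mul] at h
    exact h
  obtain ⟨hn, -⟩ := H32.ne_zero_cases h0
  obtain ⟨e1, e2, e3, -⟩ := zeq F ϖ hF d (cX T) (cY T) hd hn h1
  refine ⟨e1, e2, e3, h1, ?_⟩
  have h4 : zc T ≠ 0 := by
    intro h5
    have h6 : cX T / cY T = 0 := h5
    rw [h6, norm_zero] at e2
    norm_num at e2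
  exact norm_pos_iff.mpr h4

omit [Algebra GaussianInt F] in
theorem ne_of_zc {d : F} {T : Pt d} (h : 0 < ‖zc T‖) : T ≠ 0 := by
  rintro rfl
  rw [zc_zero, norm_zero] at h
  exact lt_irrefl _ h

/-- the size of `z` of a sum with a smaller point -/
theorem zc_add_eq (zal : ZalStmt) (zlv : ZlvStmt) (hF : IsLoc F ϖ) {d : F} (hd : d ≠ 0)
    {U e : Pt d} (hU : Big 1 U) (he : Big 1 e) (h : ‖zc e‖ < ‖zc U‖) :
    ‖zc (U + e)‖ = ‖zc U‖ := by
  obtain ⟨-, h1⟩ := zal F ϖ hF d hd U e hU he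
  rw [max_eq_left h.le] at h1
  have h0 : 0 < ‖zc U‖ := lt_of_le_of_lt (norm_nonneg _) h
  have h2 := (zlv F ϖ hF d hd).2.2.2.2.2.2.2 U (ne_of_zc h0) hU
  have hq : qn F ϖ < 1 := by
    have := (hF.lt_one ϖ).mpr dvd_rfl
    exact this
  have h3 : ‖d‖ ^ 2 * ‖zc U‖ ^ 5 < ‖zc U‖ := by
    have h4 : ‖d‖ ^ 2 * ‖zc U‖ ^ 5 = (‖d‖ * ‖zc U‖ ^ 2) ^ 2 * ‖zc U‖ := by ring
    rw [h4]
    have h5 : 0 ≤ ‖d‖ * ‖zc U‖ ^ 2 := by positivity
    have h6 : ‖d‖ * ‖zc U‖ ^ 2 < 1 := lt_of_le_of_lt h2 hq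
    have h7 : (‖d‖ * ‖zc U‖ ^ 2) ^ 2 < 1 := by nlinarith
    nlinarith
  have h4 : zc (U + e) = zc U + (zc e + (zc (U + e) - zc U - zc e)) := by ring
  rw [h4]
  apply ult_eq hF.ultra
  refine lt_of_le_of_lt (hF.ultra _ _) (max_lt h (lt_of_le_of_lt h1 h3))

/-- the abscissa is continuous -/
theorem xest (zeq : ZeqStmt) (hF : IsLoc F ϖ) {d : F} (hd : d ≠ 0) {A B : Pt d} {r : ℝ}
    (hA : Big 1 A) (hB : Big 1 B) (hr : 0 < r) (hAr : ‖zc A‖ = r) (hBr : ‖zc B‖ = r)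
    (he : Big 1 (A - B)) (hz : ‖zc (A - B)‖ < r) :
    ‖cX A - cX B‖ * r ^ 3 ≤ ‖zc (A - B)‖ := by
  by_cases hx : cX A = cX B
  · rw [hx, sub_self, norm_zero, zero_mul]
    exact norm_nonneg _
  have hA0 : A ≠ 0 := ne_of_zc (by rw [hAr]; exact hr)
  have hB0 : B ≠ 0 := ne_of_zc (by rw [hBr]; exact hr)
  obtain ⟨e0, h3, -⟩ := H32.add_ne hA0 (neg_ne_zero.mpr hB0) (by rw [H32.cX_neg]; exact hx)
  rw [H32.cX_neg, H32.cY_neg, sub_neg_eq_add] at h3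
  have hsub : A + -B = A - B := rfl
  rw [hsub] at h3 e0
  obtain ⟨-, a2, a3, -, -⟩ := sizes zeq hF hd hA hA0
  obtain ⟨-, b2, b3, -, -⟩ := sizes zeq hF hd hB hB0
  obtain ⟨-, c2, -, -, c5⟩ := sizes zeq hF hd he e0
  rw [hAr] at a2 a3
  rw [hBr] at b2 b3
  have hr2 : 0 < r ^ 2 := by positivity
  have hr3 : 0 < r ^ 3 := by positivity
  have hAB : ‖cX A‖ = ‖cX B‖ := mul_right_cancel₀ hr2.ne' (a2.trans b2.symm)
  have hYY : ‖cY A‖ = ‖cY B‖ := mul_right_cancel₀ hr3.ne' (a3.trans b3.symm)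
  have hbig : ‖cX A‖ < ‖cX (A - B)‖ := by
    by_contra hc
    have hc := not_lt.mp hc
    have h5 : ‖cX (A - B)‖ * ‖zc (A - B)‖ ^ 2 ≤ ‖cX A‖ * ‖zc (A - B)‖ ^ 2 :=
      mul_le_mul_of_nonneg_right hc (by positivity)
    have h6 : ‖cX A‖ * ‖zc (A - B)‖ ^ 2 < ‖cX A‖ * r ^ 2 := by
      apply mul_lt_mul_of_pos_left
      · exact pow_lt_pow_left₀ hz (norm_nonneg _) (by norm_num)
      · by_contra h7
        have h8 : ‖cX A‖ = 0 := le_antisymm (not_lt.mp h7) (norm_nonneg _)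
        rw [h8, zero_mul] at a2
        norm_num at a2
    linarith
  have hsum : ‖cX A + cX B‖ < ‖cX (A - B)‖ := by
    refine lt_of_le_of_lt (hF.ultra _ _) (max_lt hbig ?_)
    rw [← hAB]
    exact hbig
  have h9 : ((cY A + cY B) / (cX A - cX B)) ^ 2 = cX (A - B) + (cX A + cX B) := by
    rw [h3]; ring
  have h10 : ‖(cY A + cY B) / (cX A - cX B)‖ ^ 2 = ‖cX (A - B)‖ := by
    rw [← norm_pow, h9]
    exact ult_eq hF.ultra hsum
  have hD : 0 < ‖cX A - cX B‖ := norm_pos_iff.mpr (sub_ne_zero.mpr hx)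
  rw [norm_div, div_pow, div_eq_iff (by positivity)] at h10
  have h11 : ‖cY A + cY B‖ ≤ ‖cY A‖ := by
    refine (hF.ultra _ _).trans (max_le le_rfl ?_)
    rw [hYY]
  have h12 : ‖cY A + cY B‖ ^ 2 ≤ ‖cY A‖ ^ 2 := pow_le_pow_left₀ (norm_nonneg _) h11 2
  have hC : 0 < ‖cX (A - B)‖ := lt_of_le_of_lt (norm_nonneg _) hbig
  have h13 : (‖cX A - cX B‖ * r ^ 3) ^ 2 ≤ ‖zc (A - B)‖ ^ 2 := by
    have h14 : ‖cX (A - B)‖ * (‖cX A - cX B‖ * r ^ 3) ^ 2 ≤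
        ‖cX (A - B)‖ * ‖zc (A - B)‖ ^ 2 := by
      rw [c2]
      calc ‖cX (A - B)‖ * (‖cX A - cX B‖ * r ^ 3) ^ 2
          = (‖cX (A - B)‖ * ‖cX A - cX B‖ ^ 2) * (r ^ 3) ^ 2 := by ring
        _ = ‖cY A + cY B‖ ^ 2 * (r ^ 3) ^ 2 := by rw [h10]
        _ ≤ ‖cY A‖ ^ 2 * (r ^ 3) ^ 2 := mul_le_mul_of_nonneg_right h12 (by positivity)
        _ = (‖cY A‖ * r ^ 3) ^ 2 := by ring
        _ = 1 := by rw [a3]; norm_num
    exact le_of_mul_le_mul_left h14 hC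
  exact (pow_le_pow_iff_left₀ (by positivity) (norm_nonneg _) (two_ne_zero)).mp h13

/-- the ordinate is continuous -/
theorem yest (hF : IsLoc F ϖ) {d : F} {A B : Pt d} {K : ℝ} (hK : 0 ≤ K)
    (hA0 : A ≠ 0) (hB0 : B ≠ 0) (h0 : A + B ≠ 0) (hAB : ‖cX (A + B)‖ ≤ K ^ 2)
    (hA : ‖cX A‖ ≤ K ^ 2) (hB : ‖cX B‖ ≤ K ^ 2) :
    ‖cY A - cY B‖ ≤ K * ‖cX A - cX B‖ := by
  by_cases hx : cX A = cX B
  · rcases H32.eq_or_neg hA0 hB0 hx with h | h
    · rw [h, sub_self, sub_self, norm_zero, mul_zero]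
    · exfalso
      apply h0
      rw [h, neg_add_cancel]
  obtain ⟨-, h3, -⟩ := H32.add_ne hA0 hB0 hx
  have hD : 0 < ‖cX A - cX B‖ := norm_pos_iff.mpr (sub_ne_zero.mpr hx)
  have h9 : ((cY A - cY B) / (cX A - cX B)) ^ 2 = cX (A + B) + (cX A + cX B) := by
    rw [h3]; ring
  have h10 : ‖(cY A - cY B) / (cX A - cX B)‖ ^ 2 ≤ K ^ 2 := by
    rw [← norm_pow, h9]
    exact (hF.ultra _ _).trans (max_le hAB ((hF.ultra _ _).trans (max_le hA hB)))
  have h11 := (pow_le_pow_iff_left₀ (norm_nonneg _) hK (two_ne_zero)).mp h10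
  rw [norm_div, div_le_iff₀ hD] at h11
  exact h11

/-- the inverse of `a` modulo `ϖ ^ k` -/
theorem exists_inv {a : GaussianInt} (hp : Prime ϖ) (ha : ¬ ϖ ∣ a) (k : ℕ) :
    ∃ b : GaussianInt, ϖ ^ k ∣ a * b - 1 := by
  have h1 : IsCoprime ϖ a := (Irreducible.coprime_iff_not_dvd hp.irreducible).mpr ha
  have h2 : IsCoprime (ϖ ^ k) a := h1.pow_left
  obtain ⟨u, v, h3⟩ := h2
  refine ⟨v, -u, ?_⟩
  linear_combination h3

/-- DIV -/
theorem div (zeq : ZeqStmt) (zal : ZalStmt) (zsl : ZslStmt) (zlv : ZlvStmt) : DivStmt := by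
  intro F _ _ ϖ hF d hd a P ha hP
  have h2 := loc_two hF
  by_cases hP0 : P = 0
  · refine ⟨0, Or.inl rfl, ?_⟩
    rw [hP0]
    exact map_zero (smh a)
  obtain ⟨z1, z2, z3, z4, z5, z6, z7, z8⟩ := zlv F ϖ hF d hd
  obtain ⟨p1, p2, p3, p4, p5⟩ := sizes zeq hF hd hP hP0
  obtain ⟨r, hr⟩ : ∃ r, r = ‖zc P‖ := ⟨_, rfl⟩
  rw [← hr] at p2 p3 p5
  obtain ⟨q, hq⟩ : ∃ q, q = qn F ϖ := ⟨_, rfl⟩
  have hq1 : q < 1 := by
    rw [hq]
    exact (hF.lt_one ϖ).mpr dvd_rfl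
  have hq0 : 0 < q := by
    rw [hq]
    exact hF.uni
  -- the double of `P`
  have hP2 : Big 1 (sm 2 P) := (zsl F ϖ hF d hd 2 P hP).1
  have hP20 : sm 2 P ≠ 0 := by
    rw [two_sm]
    exact (H32.add_self h2 p1).1
  obtain ⟨-, t2, -, -, t5⟩ := sizes zeq hF hd hP2 hP20
  obtain ⟨ρ2, hρ2⟩ : ∃ ρ2, ρ2 = ‖zc (sm 2 P)‖ := ⟨_, rfl⟩
  rw [← hρ2] at t2 t5
  -- the starting index
  obtain ⟨m, hm⟩ : ∃ m : ℕ, q ^ m < ρ2 / r := exists_pow_lt_of_lt_one (by positivity) hq1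
  have hm' : ∀ k, q ^ (k + (m + 1)) * r < ρ2 ∧ q ^ (k + (m + 1)) * r < r := by
    intro k
    have e1 : q ^ (k + (m + 1)) ≤ q ^ m := pow_le_pow_of_le_one hq0.le hq1.le (by omega)
    have e2 : q ^ (k + (m + 1)) < 1 := pow_lt_one₀ hq0.le hq1 (by omega)
    rw [lt_div_iff₀ p5] at hm
    constructor
    · nlinarith
    · nlinarith
  choose b hb using exists_inv (ϖ := ϖ) hF.prime ha
  have hbn : ∀ k, ¬ ϖ ∣ b (k + (m + 1)) := by
    intro k hc
    have e1 : ϖ ∣ a * b (k + (m + 1)) - 1 := (dvd_pow_self ϖ (by omega)).trans (hb _)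
    have e2 : ϖ ∣ a * b (k + (m + 1)) := dvd_mul_of_dvd_right hc a
    have e3 : ϖ ∣ 1 := by
      have := dvd_sub e2 e1
      rwa [sub_sub_cancel] at this
    exact hF.prime.not_isUnit (isUnit_of_dvd_one e3)
  obtain ⟨T, hT⟩ : ∃ T : ℕ → Pt d, ∀ k, T k = sm (b (k + (m + 1))) P := ⟨_, fun _ => rfl⟩
  have hTG : ∀ k, Big 1 (T k) := by
    intro k
    rw [hT]
    exact (zsl F ϖ hF d hd _ P hP).1
  have hTz : ∀ k, ‖zc (T k)‖ = r := by
    intro k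
    rw [hT, hr]
    exact z4 _ P hP (hbn k)
  have hT0 : ∀ k, T k ≠ 0 := fun k => ne_of_zc (by rw [hTz]; exact p5)
  have hbd : ∀ k, ϖ ^ (k + (m + 1)) ∣ b (k + 1 + (m + 1)) - b (k + (m + 1)) := by
    intro k
    have e1 : ϖ ^ (k + (m + 1)) ∣ a * b (k + 1 + (m + 1)) - 1 :=
      (pow_dvd_pow ϖ (by omega)).trans (hb _)
    have e2 := dvd_sub e1 (hb (k + (m + 1)))
    have e3 : a * b (k + 1 + (m + 1)) - 1 - (a * b (k + (m + 1)) - 1) =
        a * (b (k + 1 + (m + 1)) - b (k + (m + 1))) := by ring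
    rw [e3] at e2
    have h1 : IsCoprime ϖ a := (Irreducible.coprime_iff_not_dvd hF.prime.irreducible).mpr ha
    exact (h1.pow_left).dvd_of_dvd_mul_left e2
  have hdiff : ∀ k, T (k + 1) - T k = sm (b (k + 1 + (m + 1)) - b (k + (m + 1))) P := by
    intro k
    rw [hT, hT, sub_sm]
  have hdG : ∀ k, Big 1 (T (k + 1) - T k) := by
    intro k
    rw [hdiff]
    exact (zsl F ϖ hF d hd _ P hP).1
  have hdz : ∀ k, ‖zc (T (k + 1) - T k)‖ ≤ q ^ (k + (m + 1)) * r := by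
    intro k
    rw [hdiff, hq, hr]
    exact z6 _ _ P hP (hbd k)
  have hX : ∀ k, ‖cX (T (k + 1)) - cX (T k)‖ ≤ (1 / r ^ 2) * q ^ k := by
    intro k
    have e1 := xest zeq hF hd (hTG (k + 1)) (hTG k) p5 (hTz _) (hTz _) (hdG k)
      (lt_of_le_of_lt (hdz k) (hm' k).2)
    have e2 := e1.trans (hdz k)
    have e3 : q ^ (k + (m + 1)) ≤ q ^ k := pow_le_pow_of_le_one hq0.le hq1.le (by omega)
    have e4 : ‖cX (T (k + 1)) - cX (T k)‖ * r ^ 2 ≤ q ^ k := by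
      have e5 : (‖cX (T (k + 1)) - cX (T k)‖ * r ^ 2) * r ≤ q ^ k * r := by
        calc (‖cX (T (k + 1)) - cX (T k)‖ * r ^ 2) * r
            = ‖cX (T (k + 1)) - cX (T k)‖ * r ^ 3 := by ring
          _ ≤ q ^ (k + (m + 1)) * r := e2
          _ ≤ q ^ k * r := mul_le_mul_of_nonneg_right e3 p5.le
      exact le_of_mul_le_mul_right e5 p5
    rw [one_div, ← div_eq_inv_mul, le_div_iff₀ (by positivity)]
    exact e4
  -- sizes
  have hTX : ∀ k, ‖cX (T k)‖ = ‖cX P‖ := by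
    intro k
    obtain ⟨-, s2, -, -, -⟩ := sizes zeq hF hd (hTG k) (hT0 k)
    rw [hTz] at s2
    exact mul_right_cancel₀ (by positivity : r ^ 2 ≠ 0) (s2.trans p2.symm)
  have hTY : ∀ k, ‖cY (T k)‖ = ‖cY P‖ := by
    intro k
    obtain ⟨-, -, s3, -, -⟩ := sizes zeq hF hd (hTG k) (hT0 k)
    rw [hTz] at s3
    exact mul_right_cancel₀ (by positivity : r ^ 3 ≠ 0) (s3.trans p3.symm)
  obtain ⟨K, hK⟩ : ∃ K : ℝ, K = 1 / ρ2 + ‖cX P‖ + 1 := ⟨_, rfl⟩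
  have hK1 : 1 / ρ2 ≤ K := by
    rw [hK]
    have := norm_nonneg (cX P)
    linarith
  have hK2 : ‖cX P‖ + 1 ≤ K := by
    rw [hK]
    have : 0 < 1 / ρ2 := by positivity
    linarith
  have hK0 : 0 ≤ K := by
    have := norm_nonneg (cX P)
    linarith
  have hKX : ‖cX P‖ ≤ K ^ 2 := by
    have := norm_nonneg (cX P)
    nlinarith
  have hY : ∀ k, ‖cY (T (k + 1)) - cY (T k)‖ ≤ (K * (1 / r ^ 2)) * q ^ k := by
    intro k
    have s1 : T (k + 1) + T k = sm (b (k + (m + 1))) (sm 2 P) + (T (k + 1) - T k) := by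
      rw [sm_comm, two_sm, ← hT]
      abel
    have s2 : Big 1 (sm (b (k + (m + 1))) (sm 2 P)) := (zsl F ϖ hF d hd _ _ hP2).1
    have s3 : ‖zc (sm (b (k + (m + 1))) (sm 2 P))‖ = ρ2 := by
      rw [hρ2]
      exact z4 _ _ hP2 (hbn k)
    have s4 : ‖zc (T (k + 1) + T k)‖ = ρ2 := by
      rw [s1, zc_add_eq zal zlv hF hd s2 (hdG k), s3]
      rw [s3]
      exact lt_of_le_of_lt (hdz k) (hm' k).1
    have s5 : T (k + 1) + T k ≠ 0 := ne_of_zc (by rw [s4]; exact t5)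
    have s6 : Big 1 (T (k + 1) + T k) := (zal F ϖ hF d hd _ _ (hTG _) (hTG _)).1
    obtain ⟨-, s7, -, -, -⟩ := sizes zeq hF hd s6 s5
    rw [s4] at s7
    have s8 : ‖cX (T (k + 1) + T k)‖ ≤ K ^ 2 := by
      have s9 : ‖cX (T (k + 1) + T k)‖ = (1 / ρ2) ^ 2 := by
        field_simp
        exact s7
      rw [s9]
      exact pow_le_pow_left₀ (by positivity) hK1 2
    have s10 := yest hF hK0 (hT0 (k + 1)) (hT0 k) s5 s8 (by rw [hTX]; exact hKX)
      (by rw [hTX]; exact hKX)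
    calc ‖cY (T (k + 1)) - cY (T k)‖ ≤ K * ‖cX (T (k + 1)) - cX (T k)‖ := s10
      _ ≤ K * ((1 / r ^ 2) * q ^ k) := mul_le_mul_of_nonneg_left (hX k) hK0
      _ = (K * (1 / r ^ 2)) * q ^ k := by ring
  have := hF.complete
  obtain ⟨x, hx⟩ := cauchySeq_tendsto_of_complete (cauchySeq_of_le_geometric q (1 / r ^ 2) hq1
    (f := fun k => cX (T k)) (fun k => by rw [dist_comm, dist_eq_norm]; exact hX k))
  obtain ⟨y, hy⟩ := cauchySeq_tendsto_of_complete (cauchySeq_of_le_geometric q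
    (K * (1 / r ^ 2)) hq1 (f := fun k => cY (T k))
    (fun k => by rw [dist_comm, dist_eq_norm]; exact hY k))
  have hxn : ‖x‖ = ‖cX P‖ := by
    refine tendsto_nhds_unique hx.norm ?_
    refine tendsto_const_nhds.congr (fun k => ?_)
    rw [hTX]
  have hyn : ‖y‖ = ‖cY P‖ := by
    refine tendsto_nhds_unique hy.norm ?_
    refine tendsto_const_nhds.congr (fun k => ?_)
    rw [hTY]
  have heq : y ^ 2 = x ^ 3 - d ^ 2 * x := by
    refine tendsto_nhds_unique (hy.pow 2) ?_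
    refine ((hx.pow 3).sub (hx.const_mul (d ^ 2))).congr (fun k => ?_)
    exact (H32.eqn (P := T k)).symm
  have hns : (W d).Nonsingular x y := (W_nonsingular d x y h2 hd).mpr heq
  have hy0 : y ≠ 0 := by
    intro h
    rw [h, norm_zero] at hyn
    exact p1 (norm_eq_zero.mp hyn.symm)
  obtain ⟨Q, hQ⟩ : ∃ Q : Pt d, Q = .some x y hns := ⟨_, rfl⟩
  have hQX : cX Q = x := by rw [hQ]; rfl
  have hQY : cY Q = y := by rw [hQ]; rfl
  have hQG : Big 1 Q := by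
    right
    rw [hQX, norm_div, hxn, lt_div_iff₀ (norm_pos_iff.mpr hd), one_mul]
    exact p4
  refine ⟨Q, hQG, ?_⟩
  have hclose : ∀ N : ℝ, ∀ᶠ k in atTop, Big N (T k - Q) := by
    intro N
    obtain ⟨ε, hε, h⟩ := dif_core h2 hd Q (by rw [hQY]; exact hy0) N
    have e1 : ∀ᶠ k in atTop, ‖cX (T k) - x‖ < ε := by
      have := Metric.tendsto_nhds.mp hx ε hε
      simpa [dist_eq_norm] using this
    have e2 : ∀ᶠ k in atTop, ‖cY (T k) - y‖ < ε := by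
      have := Metric.tendsto_nhds.mp hy ε hε
      simpa [dist_eq_norm] using this
    filter_upwards [e1, e2] with k k1 k2
    exact h (T k) (hT0 k) (by rw [hQX]; exact k1) (by rw [hQY]; exact k2)
  have hlev : ∀ ρ : ℝ, 0 < ρ → Lev ρ (sm a Q - P) := by
    intro ρ hρ
    obtain ⟨k0, hk0⟩ := z7 ρ hρ
    obtain ⟨N, hN⟩ : ∃ N : ℝ, N = max 1 (1 / (ρ ^ 2 * ‖d‖)) := ⟨_, rfl⟩
    have hdn : 0 < ‖d‖ := norm_pos_iff.mpr hd
    obtain ⟨k, hk1, hk2⟩ := ((hclose N).and (eventually_ge_atTop k0)).exists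
    have e1 : Lev ρ (T k - Q) := by
      rcases hk1 with h | h
      · refine ⟨Or.inl h, ?_⟩
        rw [h, zc_zero, norm_zero]
        exact hρ.le
      · have g1 : 1 < ‖cX (T k - Q) / d‖ :=
          lt_of_le_of_lt (by rw [hN]; exact le_max_left _ _) h
        have g2 : 1 / (ρ ^ 2 * ‖d‖) < ‖cX (T k - Q) / d‖ :=
          lt_of_le_of_lt (by rw [hN]; exact le_max_right _ _) h
        have g3 : Big 1 (T k - Q) := Or.inr g1
        have g4 : T k - Q ≠ 0 := by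
          intro g5
          rw [g5] at g1
          have g6 : cX (0 : Pt d) = 0 := rfl
          rw [g6, zero_div, norm_zero] at g1
          linarith
        obtain ⟨-, g7, -, -, g8⟩ := sizes zeq hF hd g3 g4
        refine ⟨g3, ?_⟩
        rw [norm_div, div_lt_div_iff₀ (by positivity) hdn, one_mul] at g2
        have g9 : 1 < ‖cX (T k - Q)‖ * ρ ^ 2 := by
          have g10 : 1 * ‖d‖ < (‖cX (T k - Q)‖ * ρ ^ 2) * ‖d‖ := by
            calc 1 * ‖d‖ = ‖d‖ := one_mul _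
              _ < ‖cX (T k - Q)‖ * (ρ ^ 2 * ‖d‖) := g2
              _ = _ := by ring
          exact lt_of_mul_lt_mul_right g10 hdn.le
        by_contra hc
        have hc := not_le.mp hc
        have g11 : ρ ^ 2 ≤ ‖zc (T k - Q)‖ ^ 2 := pow_le_pow_left₀ hρ.le hc.le 2
        have g12 : ‖cX (T k - Q)‖ * ρ ^ 2 ≤ ‖cX (T k - Q)‖ * ‖zc (T k - Q)‖ ^ 2 :=
          mul_le_mul_of_nonneg_left g11 (norm_nonneg _)
        linarith
    have e2 : Lev ρ (sm (a * b (k + (m + 1)) - 1) P) :=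
      hk0 _ P hP ((pow_dvd_pow ϖ (by omega)).trans (hb _))
    have e3 : sm a Q - P = sm (a * b (k + (m + 1)) - 1) P - sm a (T k - Q) := by
      rw [sub_sm, mul_sm, sm_sub, ← hT]
      have e4 : sm (1 : GaussianInt) P = P := by
        have := natCast_sm 1 P
        rw [Nat.cast_one, one_smul] at this
        exact this
      rw [e4]
      abel
    rw [e3]
    exact (z1 ρ _ _ e2 (z2 ρ a _ e1)).2.2
  have hG := (hlev 1 one_pos).1
  have hz0 : zc (sm a Q - P) = 0 := by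
    rw [← norm_eq_zero]
    apply le_antisymm _ (norm_nonneg _)
    apply le_of_forall_pos_le_add
    intro ρ hρ
    rw [zero_add]
    exact (hlev ρ hρ).2
  exact sub_eq_zero.mp ((z3 _ hG).mp hz0)

end local_part

end Pool.Agent.WAP.H61D
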