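import Pool.Agent.Helper61_WAP.DIF

/-! Squad WAP, row LOC: local coordinates. -/

namespace Pool.Agent.WAP.H61

open Classical

theorem sq_d {F : Type} [Field F] {d : F} (hd : d ≠ 0) (P : Pt d) :
    cY P ^ 2 = d ^ 3 * cub (cX P / d) := by
  rw [H32.eqn]
  unfold cub
  field_simp

theorem loc (dif : DifStmt) : LocStmt := by
  intro F _ _ hF d hd P0 Q0 hU N
  have h2 := two_ne hF
  have hyy : cY P0 * cY Q0 / d ^ 3 ≠ 0 := hU.2
  have hP0 : cY P0 ≠ 0 := by
    intro h
    apply hyy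
    rw [h]
    simp
  have hQ0 : cY Q0 ≠ 0 := by
    intro h
    apply hyy
    rw [h]
    simp
  obtain ⟨ε1, he1, hd1⟩ := dif F hF d hd P0 hP0 N
  obtain ⟨ε2, he2, hd2⟩ := dif F hF d hd Q0 hQ0 N
  -- continuity of the second ordinate
  have hcont : ContinuousAt (fun w : F × F => d ^ 3 * w.1 / (cY P0 * w.2))
      (cY P0 * cY Q0 / d ^ 3, 1) := by
    apply ContinuousAt.div
    · exact (continuous_const.mul continuous_fst).continuousAt
    · exact (continuous_const.mul continuous_snd).continuousAt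
    · simpa using hP0
  rw [Metric.continuousAt_iff] at hcont
  obtain ⟨η, hη, hcont⟩ := hcont ε2 he2
  have hval : d ^ 3 * (cY P0 * cY Q0 / d ^ 3) / (cY P0 * 1) = cY Q0 := by
    field_simp
  obtain ⟨δ, hδ, hsq⟩ := hF.2.2 (min (min (ε1 / ‖cY P0‖) η) 1)
    (lt_min (lt_min (div_pos he1 (norm_pos_iff.mpr hP0)) hη) one_pos)
  refine ⟨{z | ‖d * z.1 - cX P0‖ < ε1 ∧ ‖d ^ 3 * cub z.1 / cY P0 ^ 2 - 1‖ < δ ∧
    ‖d * z.2.1 - cX Q0‖ < ε2 ∧ ‖z.2.2 - cY P0 * cY Q0 / d ^ 3‖ < η}, ?_, ?_, ?_⟩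
  · have k1 : Continuous fun z : F × F × F => ‖d * z.1 - cX P0‖ := by fun_prop
    have k2 : Continuous fun z : F × F × F => ‖d ^ 3 * cub z.1 / cY P0 ^ 2 - 1‖ := by
      unfold cub
      fun_prop
    have k3 : Continuous fun z : F × F × F => ‖d * z.2.1 - cX Q0‖ := by fun_prop
    have k4 : Continuous fun z : F × F × F => ‖z.2.2 - cY P0 * cY Q0 / d ^ 3‖ := by fun_prop
    exact (isOpen_lt k1 continuous_const).inter ((isOpen_lt k2 continuous_const).inter
      ((isOpen_lt k3 continuous_const).inter (isOpen_lt k4 continuous_const)))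
  · refine ⟨?_, ?_, ?_, ?_⟩
    · show ‖d * (cX P0 / d) - cX P0‖ < ε1
      rw [mul_div_cancel₀ _ hd, sub_self, norm_zero]
      exact he1
    · show ‖d ^ 3 * cub (cX P0 / d) / cY P0 ^ 2 - 1‖ < δ
      rw [← sq_d hd P0, div_self (pow_ne_zero 2 hP0), sub_self, norm_zero]
      exact hδ
    · show ‖d * (cX Q0 / d) - cX Q0‖ < ε2
      rw [mul_div_cancel₀ _ hd, sub_self, norm_zero]
      exact he2
    · show ‖cY P0 * cY Q0 / d ^ 3 - cY P0 * cY Q0 / d ^ 3‖ < η
      rw [sub_self, norm_zero]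
      exact hη
  · rintro ⟨x, t, y⟩ ⟨o1, o2, o3, o4⟩ ⟨u1, u2⟩
    change ‖d * x - cX P0‖ < ε1 at o1
    change ‖d ^ 3 * cub x / cY P0 ^ 2 - 1‖ < δ at o2
    change ‖d * t - cX Q0‖ < ε2 at o3
    change ‖y - cY P0 * cY Q0 / d ^ 3‖ < η at o4
    change y ^ 2 = cub x * cub t at u1
    change y ≠ 0 at u2
    obtain ⟨r, hr, hr1⟩ := hsq _ o2
    have hra : ‖r - 1‖ < ε1 / ‖cY P0‖ :=
      lt_of_lt_of_le hr1 (le_trans (min_le_left _ _) (min_le_left _ _))
    have hrb : ‖r - 1‖ < η := lt_of_lt_of_le hr1 (le_trans (min_le_left _ _) (min_le_right _ _))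
    have hrc : ‖r - 1‖ < 1 := lt_of_lt_of_le hr1 (min_le_right _ _)
    have hr0 : r ≠ 0 := by
      rintro rfl
      rw [zero_sub, norm_neg, norm_one] at hrc
      exact lt_irrefl _ hrc
    have hx0 : cub x ≠ 0 := by
      intro h
      rw [h, zero_mul] at u1
      exact u2 (pow_eq_zero_iff (two_ne_zero) |>.mp u1)
    have hYr : (cY P0 * r) ^ 2 = d ^ 3 * cub x := by
      rw [mul_pow, hr, mul_div_cancel₀ _ (pow_ne_zero 2 hP0)]
    have hP : (W d).Nonsingular (d * x) (cY P0 * r) := by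
      rw [W_nonsingular d _ _ h2 hd, hYr]
      unfold cub
      ring
    have hYr0 : cY P0 * r ≠ 0 := mul_ne_zero hP0 hr0
    have hYQ : (d ^ 3 * y / (cY P0 * r)) ^ 2 = d ^ 3 * cub t := by
      rw [div_pow, hYr, mul_pow, u1]
      field_simp
    have hQ : (W d).Nonsingular (d * t) (d ^ 3 * y / (cY P0 * r)) := by
      rw [W_nonsingular d _ _ h2 hd, hYQ]
      unfold cub
      ring
    obtain ⟨P, hPd⟩ : ∃ P : Pt d, P = .some (d * x) (cY P0 * r) hP := ⟨_, rfl⟩
    obtain ⟨Q, hQd⟩ : ∃ Q : Pt d, Q = .some (d * t) (d ^ 3 * y / (cY P0 * r)) hQ := ⟨_, rfl⟩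
    have pX : cX P = d * x := by rw [hPd]; rfl
    have pY : cY P = cY P0 * r := by rw [hPd]; rfl
    have qX : cX Q = d * t := by rw [hQd]; rfl
    have qY : cY Q = d ^ 3 * y / (cY P0 * r) := by rw [hQd]; rfl
    have hPn : P ≠ 0 := by rw [hPd]; exact WeierstrassCurve.Affine.Point.some_ne_zero _
    have hQn : Q ≠ 0 := by rw [hQd]; exact WeierstrassCurve.Affine.Point.some_ne_zero _
    refine ⟨P - P0, Q - Q0, ?_, ?_, ?_⟩
    · apply hd1 P hPn
      · rw [pX]; exact o1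
      · rw [pY]
        have h3 : cY P0 * r - cY P0 = cY P0 * (r - 1) := by ring
        rw [h3, norm_mul]
        rw [lt_div_iff₀ (norm_pos_iff.mpr hP0)] at hra
        linarith [mul_comm (‖r - 1‖) ‖cY P0‖]
    · apply hd2 Q hQn
      · rw [qX]; exact o3
      · rw [qY]
        have h3 := hcont (x := (y, r)) (by
          rw [Prod.dist_eq, max_lt_iff]
          constructor
          · rw [dist_eq_norm]; exact o4
          · rw [dist_eq_norm]; exact hrb)
        rw [dist_eq_norm] at h3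
        change ‖d ^ 3 * y / (cY P0 * r) -
          d ^ 3 * (cY P0 * cY Q0 / d ^ 3) / (cY P0 * 1)‖ < ε2 at h3
        rw [hval] at h3
        exact h3
    · rw [add_sub_cancel, add_sub_cancel]
      unfold kum
      rw [pX, pY, qX, qY]
      refine Prod.ext ?_ (Prod.ext ?_ ?_)
      · show x = d * x / d
        field_simp
      · show t = d * t / d
        field_simp
      · show y = cY P0 * r * (d ^ 3 * y / (cY P0 * r)) / d ^ 3
        field_simp

end Pool.Agent.WAP.H61
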