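import Pool.Agent.WAP.StmtsL

/-! Squad WAP, row MCA: a finite `ℤ[i]`-module with at most one-dimensional `λ`-torsion for every
prime `λ` is cyclic. -/

namespace Pool.Agent.WAP.H61M

open Classical

theorem cyclic_of {N : Type} [AddCommGroup N] [Module GaussianInt N] [Finite N]
    (h : ∀ l : GaussianInt, Prime l → ∀ x y : N, l • x = 0 → l • y = 0 → x ≠ 0 →
      ∃ a : GaussianInt, y = a • x) : ∃ g : N, ∀ m : N, ∃ a : GaussianInt, m = a • g := by
  have htor : Module.IsTorsion GaussianInt N := by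
    intro x
    have h1 : Nat.card N ≠ 0 := Nat.card_pos.ne'
    have h2 : (Nat.card N : GaussianInt) ≠ 0 := Nat.cast_ne_zero.mpr h1
    refine ⟨⟨(Nat.card N : GaussianInt), mem_nonZeroDivisors_of_ne_zero h2⟩, ?_⟩
    show (Nat.card N : GaussianInt) • x = 0
    rw [Nat.cast_smul_eq_nsmul]
    exact card_nsmul_eq_zero'
  obtain ⟨ι, _, p, hp, e, ⟨φ⟩⟩ := Module.equiv_directSum_of_isTorsion htor
  obtain ⟨f, hf⟩ : ∃ f : ι → Ideal GaussianInt, ∀ i, f i = GaussianInt ∙ p i ^ e i :=
    ⟨_, fun _ => rfl⟩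
  let ψ : N ≃ₗ[GaussianInt] (∀ i, GaussianInt ⧸ (GaussianInt ∙ p i ^ e i)) :=
    φ.trans (DirectSum.linearEquivFunOnFintype GaussianInt ι _)
  -- the elements of order `p i`
  have hz : ∀ i, e i ≠ 0 → ∃ x : N, p i • x = 0 ∧ ψ x i ≠ 0 ∧ ∀ j, j ≠ i → ψ x j = 0 := by
    intro i hi
    refine ⟨ψ.symm (Pi.single i (Submodule.Quotient.mk (p i ^ (e i - 1)))), ?_, ?_, ?_⟩
    · rw [← map_smul, ← map_zero ψ.symm]
      congr 1
      rw [← Pi.single_smul, ← Submodule.Quotient.mk_smul, smul_eq_mul, ← pow_succ',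
        Nat.sub_add_cancel (Nat.one_le_iff_ne_zero.mpr hi)]
      rw [(Submodule.Quotient.mk_eq_zero _).mpr (Submodule.mem_span_singleton_self _),
        Pi.single_zero]
    · rw [LinearEquiv.apply_symm_apply, Pi.single_eq_same]
      intro h0
      rw [Submodule.Quotient.mk_eq_zero, Submodule.mem_span_singleton] at h0
      obtain ⟨c, hc⟩ := h0
      have h1 : p i ^ (e i - 1) * 1 = p i ^ (e i - 1) * (c * p i) := by
        have h2 : p i ^ e i = p i ^ (e i - 1) * p i := by
          rw [← pow_succ, Nat.sub_add_cancel (Nat.one_le_iff_ne_zero.mpr hi)]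
        rw [mul_one]
        nth_rewrite 1 [← hc]
        rw [smul_eq_mul, h2]
        ring
      have h3 := mul_left_cancel₀ (pow_ne_zero _ (hp i).ne_zero) h1
      exact (hp i).not_isUnit (isUnit_of_dvd_one ⟨c, by rw [h3]; ring⟩)
    · intro j hj
      rw [LinearEquiv.apply_symm_apply, Pi.single_eq_of_ne hj]
  have hcop : Pairwise fun i j => IsCoprime (f i) (f j) := by
    intro i j hij
    rw [hf, hf]
    show IsCoprime (Ideal.span {p i ^ e i}) (Ideal.span {p j ^ e j})
    rw [Ideal.isCoprime_span_singleton_iff]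
    by_cases hi : e i = 0
    · rw [hi, pow_zero]
      exact isCoprime_one_left
    by_cases hj : e j = 0
    · rw [hj, pow_zero]
      exact isCoprime_one_right
    apply IsCoprime.pow
    rw [Irreducible.coprime_iff_not_dvd (hp i)]
    intro hd
    obtain ⟨x, x1, x2, x3⟩ := hz i hi
    obtain ⟨y, y1, y2, y3⟩ := hz j hj
    have hass : p j ∣ p i := ((hp i).dvd_symm (hp j)) hd
    obtain ⟨c, hc⟩ := hass
    have hy : p i • y = 0 := by
      rw [hc, mul_comm, mul_smul, y1, smul_zero]
    have hx0 : x ≠ 0 := by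
      rintro rfl
      apply x2
      rw [map_zero]
      rfl
    obtain ⟨a, ha⟩ := h (p i) (hp i).prime x y x1 hy hx0
    apply y2
    rw [ha, map_smul, Pi.smul_apply, x3 j hij.symm, smul_zero]
  refine ⟨ψ.symm (fun i => Submodule.Quotient.mk 1), fun m => ?_⟩
  have hr : ∀ i, ∃ r : GaussianInt, (Submodule.Quotient.mk r :
      GaussianInt ⧸ (GaussianInt ∙ p i ^ e i)) = ψ m i := fun i =>
    Submodule.Quotient.mk_surjective _ (ψ m i)
  choose r hr using hr
  obtain ⟨a, ha⟩ := Ideal.exists_forall_sub_mem_ideal (I := f) hcop r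
  refine ⟨a, ?_⟩
  rw [← map_smul]
  apply ψ.injective
  rw [LinearEquiv.apply_symm_apply]
  funext i
  rw [Pi.smul_apply, ← Submodule.Quotient.mk_smul, smul_eq_mul, mul_one, ← hr i]
  symm
  rw [Submodule.Quotient.eq]
  have := ha i
  rw [hf i] at this
  exact this

theorem mca : McaStmt := by
  intro M _ _ G n h1 h2
  have hfin : Finite (M ⧸ G) := by
    by_contra hc
    have hinf : Infinite (M ⧸ G) := not_finite_iff_infinite.mp hc
    obtain ⟨s, hs⟩ := Infinite.exists_subset_card_eq (M ⧸ G) (n + 1)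
    choose g hg using Submodule.Quotient.mk_surjective G
    have hinj : Function.Injective g := fun u v huv => by rw [← hg u, ← hg v, huv]
    have h3 := h1 (s.image g) (by
      intro x hx y hy hxy hG
      obtain ⟨u, -, rfl⟩ := Finset.mem_image.mp hx
      obtain ⟨v, -, rfl⟩ := Finset.mem_image.mp hy
      apply hxy
      have h4 : (Submodule.Quotient.mk (g u) : M ⧸ G) = Submodule.Quotient.mk (g v) :=
        (Submodule.Quotient.eq G).mpr hG
      rw [hg, hg] at h4
      rw [h4])
    rw [Finset.card_image_of_injective _ hinj, hs] at h3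
    omega
  have key := cyclic_of (N := M ⧸ G) (by
    intro l hl x y hx hy hx0
    obtain ⟨u, rfl⟩ := Submodule.Quotient.mk_surjective G x
    obtain ⟨v, rfl⟩ := Submodule.Quotient.mk_surjective G y
    rw [← Submodule.Quotient.mk_smul, Submodule.Quotient.mk_eq_zero] at hx hy
    rw [Ne, Submodule.Quotient.mk_eq_zero] at hx0
    obtain ⟨a, ha⟩ := h2 l hl u v hx hy hx0
    refine ⟨a, ?_⟩
    rw [← Submodule.Quotient.mk_smul]
    exact (Submodule.Quotient.eq G).mpr ha)
  obtain ⟨g, hg⟩ := key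
  obtain ⟨g, rfl⟩ := Submodule.Quotient.mk_surjective G g
  refine ⟨g, fun m => ?_⟩
  obtain ⟨a, ha⟩ := hg (Submodule.Quotient.mk m)
  refine ⟨a, ?_⟩
  rw [← Submodule.Quotient.mk_smul] at ha
  exact (Submodule.Quotient.eq G).mp ha

end Pool.Agent.WAP.H61M
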